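import Mathlib

namespace Pool.Agent.Results.MP_a41668_al.Counterexample

universe u

theorem result : ∃ op : (Fin 3 → ℝ) → (Fin 3 → ℝ) → Fin 3 → ℝ,
    ContDiff ℝ ⊤ (fun p : (Fin 3 → ℝ) × (Fin 3 → ℝ) => op p.1 p.2) ∧ ConnectedSpace (Fin 3 → ℝ) ∧
    (∀ x, op x x = x) ∧ (∀ y, Function.Bijective fun x => op x y) ∧
    (∀ x y z, op (op x y) z = op (op x z) (op y z)) ∧
    (∀ x y, ∃ g ∈ Subgroup.closure {s : Equiv.Perm (Fin 3 → ℝ) | ∃ z, ∀ w, s w = op w z}, g x = y) ∧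
    ∀ (G : Type u) [Group G] (ι : (Fin 3 → ℝ) → G), (∀ x y, ι (op x y) = (ι y)⁻¹ * ι x * ι y) →
      ¬ Function.Injective ι := by
  let op : (Fin 3 → ℝ) → (Fin 3 → ℝ) → Fin 3 → ℝ := fun x y =>
    ![2 * y 0 - x 0, 2 * y 1 - x 1, x 2 + (x 0 * y 1 - x 1 * y 0)]
  have h1 : ∀ y, Function.Involutive fun x => op x y := fun y x => by
    ext i; fin_cases i <;> simp [op]; ring
  refine ⟨op, contDiff_pi.2 fun i => by fin_cases i <;> simp [op] <;> fun_prop, inferInstance,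
    fun x => by ext i; fin_cases i <;> simp [op] <;> ring, fun y => (h1 y).bijective,
    fun x y z => by ext i; fin_cases i <;> simp [op] <;> ring, fun x y => ?_, fun G _ ι h hi => ?_⟩
  · have h2 : ∀ z, (h1 z).toPerm ∈ Subgroup.closure {s : Equiv.Perm (Fin 3 → ℝ) | ∃ z, ∀ w, s w = op w z} :=
      fun z => Subgroup.subset_closure ⟨z, fun _ => rfl⟩
    refine ⟨_, mul_mem (h2 ![y 0 / 2, y 1 / 2, 0]) (mul_mem (h2 ![-1, (y 2 - x 2) / 2, 0])
      (mul_mem (h2 ![0, (y 2 - x 2) / 2, 0]) (mul_mem (h2 ![1, 0, 0]) (h2 ![x 0 / 2, x 1 / 2, 0])))), ?_⟩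
    ext i; fin_cases i <;> simp [op] <;> ring
  · have h2 : ∀ x y, ι y * ι y * ι x = ι x * (ι y * ι y) := fun x y => by
      have := congrArg ι (h1 y x)
      simp only [h] at this
      conv_lhs => rw [← this]
      group
    have h3 : ∀ x y, ι (op x y) * ι (op x y) = ι x * ι x := fun x y => by
      rw [h, show (ι y)⁻¹ * ι x * ι y * ((ι y)⁻¹ * ι x * ι y) = (ι y)⁻¹ * (ι x * ι x * ι y) by group, h2]
      group
    have e : ∀ b, op (op (op ![0, 0, b] ![1, 0, 0]) ![0, 1, 0]) ![-1, 1, 0] = ![0, 0, b + 2] := fun b => by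
      ext i; fin_cases i <;> simp [op]
    have h4 : ∀ x, Commute (ι ![0, 0, 2] * (ι ![0, 0, 0])⁻¹) (ι x) := fun x => by
      have h5 := (h (op x ![0, 0, 0]) ![0, 0, 0]).symm.trans ((congrArg ι (show op (op x ![0, 0, 0]) ![0, 0, 0] =
        op (op x ![0, 0, 0]) ![0, 0, 2] by simp [op])).trans (h _ _))
      have h6 := (h x ![0, 0, 0]).symm.trans ((congrArg ι (show op x ![0, 0, 0] = op x ![0, 0, 2] by
        simp [op])).trans (h _ _))
      rw [Commute, SemiconjBy, show ι ![0, 0, 2] * (ι ![0, 0, 0])⁻¹ * ι x =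
        ι ![0, 0, 2] * ((ι ![0, 0, 0])⁻¹ * ι x * ι ![0, 0, 0]) * (ι ![0, 0, 0])⁻¹ by group, h6]
      group
    obtain ⟨c, hc⟩ : ∃ c, ι ![0, 0, 2] * (ι ![0, 0, 0])⁻¹ = c := ⟨_, rfl⟩
    rw [hc] at h4
    have h5 : ι ![0, 0, 2] = c * ι ![0, 0, 0] := by rw [← hc]; group
    have h6 : ∀ x y z, ι x = c * ι y → ι (op x z) = c * ι (op y z) := fun x y z hx => by
      rw [h, h, hx, ← mul_assoc, ← (h4 z).inv_right.eq]; group
    have h7 := h6 _ _ ![-1, 1, 0] (h6 _ _ ![0, 1, 0] (h6 _ _ ![1, 0, 0] h5))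
    rw [e, e, zero_add, h5] at h7
    have h8 := h3 (op (op ![0, 0, 0] ![1, 0, 0]) ![0, 1, 0]) ![-1, 1, 0]
    rw [e, h3, h3, zero_add, h5, mul_assoc, ← mul_assoc _ c, ← (h4 _).eq, mul_assoc, ← mul_assoc,
      mul_eq_right] at h8
    rw [← mul_assoc, h8, one_mul] at h7
    simpa using congrFun (hi h7) 2

end Pool.Agent.Results.MP_a41668_al.Counterexample
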